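import Pool.Agent.TH349.EQ.Union

set_option autoImplicit false

namespace Pool.Agent.Results.MP_aaa0df_nt.EquidistributionAlmostAll

open Finset Real Pool.Agent.TH349.EQ Pool.Agent.W57.SW

/-- number of primes `p < y` -/
noncomputable def primeCount (y : ℝ) : ℕ := Set.ncard {p : ℕ | p.Prime ∧ (p : ℝ) < y}

/-- the threshold of the problem, `(log |d|)^2 (log log |d|)^2` -/
noncomputable def thr (d : ℤ) : ℝ := (log |(d : ℝ)|) ^ 2 * (log (log |(d : ℝ)|)) ^ 2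

/-- `N(d)`, the number of primes `p < (log |d|)^2 (log log |d|)^2` that split in `ℚ(√d)` -/
noncomputable def N (d : ℤ) : ℕ := splitCount d (thr d)

lemma primeCount_eq (y : ℝ) : primeCount y = (pr (⌈y⌉₊ - 1)).card := by
  classical
  have h := ncard_eq (fun _ => True) y
  simp only [and_true, filter_true] at h
  rw [primeCount, h]

lemma count_le {d : ℤ} (hd : IsNFD d) (y : ℝ) :
    (primeCount y : ℝ) ≤ splitCount d y + inertCount d y + 2 * log |(d : ℝ)| ∧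
      (splitCount d y : ℝ) + inertCount d y ≤ primeCount y := by
  classical
  rw [primeCount_eq, splitCount, inertCount, ncard_eq, ncard_eq]
  obtain ⟨Y, hY⟩ : ∃ Y, Y = ⌈y⌉₊ - 1 := ⟨_, rfl⟩
  rw [← hY]
  have hdisj : Disjoint ((pr Y).filter (Splits d)) ((pr Y).filter (Inert d)) := by
    rw [disjoint_filter]
    intro p _ h1
    exact not_both h1
  have h0 : ((pr Y).filter (Splits d)).card + ((pr Y).filter (Inert d)).card ≤ (pr Y).card := by
    rw [← card_union_of_disjoint hdisj]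
    exact card_le_card (union_subset (filter_subset _ _) (filter_subset _ _))
  have h0' : (((pr Y).filter (Splits d)).card : ℝ) + ((pr Y).filter (Inert d)).card ≤
      (pr Y).card := by exact_mod_cast h0
  refine ⟨?_, h0'⟩
  have h1 : pr Y ⊆ ((pr Y).filter (Splits d) ∪ (pr Y).filter (Inert d)) ∪ d.natAbs.primeFactors := by
    intro p hp
    rw [mem_union, mem_union, mem_filter, mem_filter, Nat.mem_primeFactors]
    have hpp := (mem_pr.mp hp).1
    by_cases hi : Inert d p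
    · left; right; exact ⟨hp, hi⟩
    · by_cases hs : Splits d p
      · left; left; exact ⟨hp, hs⟩
      · right
        unfold Inert at hi
        unfold Splits at hs
        push Not at hi
        have h2 : (p : ℤ) ∣ d := by
          by_contra h
          exact hs ⟨h, hi⟩
        have h3 := nfd_le hd
        exact ⟨hpp, Int.natCast_dvd.mp h2, by omega⟩
  have h2 := (card_le_card h1).trans ((card_union_le _ _).trans
    (Nat.add_le_add_right (card_union_le _ _) _))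
  have h3 : ((pr Y).card : ℝ) ≤ ((pr Y).filter (Splits d)).card + ((pr Y).filter (Inert d)).card +
      (d.natAbs.primeFactors.card : ℝ) := by exact_mod_cast h2
  have hn0 : d.natAbs ≠ 0 := by
    have := nfd_le hd
    omega
  have h4 : 2 ^ d.natAbs.primeFactors.card ≤ d.natAbs := by
    calc 2 ^ d.natAbs.primeFactors.card ≤ ∏ p ∈ d.natAbs.primeFactors, p := by
          rw [← prod_const]
          exact prod_le_prod' fun p hp => (Nat.prime_of_mem_primeFactors hp).two_le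
      _ ≤ _ := Nat.le_of_dvd (Nat.pos_of_ne_zero hn0) (Nat.prod_primeFactors_dvd _)
  have hnat : ((d.natAbs : ℕ) : ℝ) = |(d : ℝ)| := by
    rw [Nat.cast_natAbs, Int.cast_abs]
  have h5 : (2 : ℝ) ^ d.natAbs.primeFactors.card ≤ |(d : ℝ)| := by
    rw [← hnat]; exact_mod_cast h4
  have h6 := log_le_log (by positivity) h5
  rw [log_pow] at h6
  have h7 : (0.69 : ℝ) ≤ log 2 := by linarith [log_two_gt_d9]
  have h8 : (d.natAbs.primeFactors.card : ℝ) ≤ 2 * log |(d : ℝ)| := by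
    have : (0 : ℝ) ≤ d.natAbs.primeFactors.card := Nat.cast_nonneg _
    nlinarith
  linarith

/-- discriminants with large absolute value have a large threshold -/
lemma thr_large (y0 : ℝ) : ∃ D0 : ℕ, ∀ d : ℤ, IsNFD d → (D0 : ℤ) < |d| →
    y0 ≤ thr d ∧ (log |(d : ℝ)|) ^ (2 : ℝ) ≤ thr d ∧ thr d ≤ (log |(d : ℝ)|) ^ (4 : ℝ) := by
  have h1 : ∀ᶠ x : ℝ in Filter.atTop, 1 ≤ log (log x) :=
    (tendsto_log_atTop.comp tendsto_log_atTop).eventually (Filter.eventually_ge_atTop _)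
  have h2 : ∀ᶠ x : ℝ in Filter.atTop, max 1 y0 ≤ log x :=
    tendsto_log_atTop.eventually (Filter.eventually_ge_atTop _)
  obtain ⟨x0, hx0⟩ := Filter.eventually_atTop.mp (h1.and h2)
  refine ⟨⌈x0⌉₊, ?_⟩
  intro d hd hD
  have hx : x0 ≤ |(d : ℝ)| := by
    have h3 : ((⌈x0⌉₊ : ℤ) : ℝ) ≤ ((|d| : ℤ) : ℝ) := by exact_mod_cast hD.le
    rw [Int.cast_abs] at h3
    refine (Nat.le_ceil x0).trans ?_
    simpa using h3
  obtain ⟨a1, a2⟩ := hx0 _ hx
  obtain ⟨l, hl⟩ : ∃ l : ℝ, l = log |(d : ℝ)| := ⟨_, rfl⟩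
  unfold thr
  rw [← hl] at a1 a2 ⊢
  have b1 : 1 ≤ l := le_trans (le_max_left _ _) a2
  have b2 : y0 ≤ l := le_trans (le_max_right _ _) a2
  have b3 : log l ≤ l := (log_le_sub_one_of_pos (by linarith)).trans (by linarith)
  have b4 : (log l) ^ 2 ≤ l ^ 2 := pow_le_pow_left₀ (by linarith) b3 2
  have b5 : 1 ≤ (log l) ^ 2 := by nlinarith
  have b6 : l ≤ l ^ 2 := by nlinarith
  have b7 : 0 ≤ l ^ 2 := by positivity
  refine ⟨?_, ?_, ?_⟩
  · nlinarith
  · rw [rpow_two]; nlinarith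
  · rw [show (4 : ℝ) = ((4 : ℕ) : ℝ) by norm_num, rpow_natCast]
    calc l ^ 2 * (log l) ^ 2 ≤ l ^ 2 * l ^ 2 := mul_le_mul_of_nonneg_left b4 b7
      _ = l ^ 4 := by ring

lemma analytic (δ r : ℝ) (hδ : δ < 1 / 2) (hr : δ < r) : ∃ y0 : ℝ, ∀ y : ℝ, y0 ≤ y →
    1 ≤ y ∧ y ^ (1 - r) + 2 * √y ≤ y ^ (1 - δ) := by
  have h1 : ∀ᶠ y : ℝ in Filter.atTop, 2 ≤ y ^ (r - δ) :=
    (tendsto_rpow_atTop (by linarith)).eventually (Filter.eventually_ge_atTop _)
  have h2 : ∀ᶠ y : ℝ in Filter.atTop, 4 ≤ y ^ (1 / 2 - δ) :=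
    (tendsto_rpow_atTop (by linarith)).eventually (Filter.eventually_ge_atTop _)
  obtain ⟨y0, hy0⟩ := Filter.eventually_atTop.mp
    (h1.and (h2.and (Filter.eventually_ge_atTop (1 : ℝ))))
  refine ⟨y0, fun y hy => ?_⟩
  obtain ⟨a1, a2, a3⟩ := hy0 y hy
  refine ⟨a3, ?_⟩
  have hypos : 0 < y := by linarith
  have b1 : y ^ (1 - δ) = y ^ (1 - r) * y ^ (r - δ) := by
    rw [← rpow_add hypos]; congr 1; ring
  have b2 : y ^ (1 - δ) = √y * y ^ (1 / 2 - δ) := by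
    rw [sqrt_eq_rpow, ← rpow_add hypos]; congr 1; ring
  have c1 : y ^ (1 - r) * 2 ≤ y ^ (1 - r) * y ^ (r - δ) :=
    mul_le_mul_of_nonneg_left a1 (by positivity)
  have c2 : √y * 4 ≤ √y * y ^ (1 / 2 - δ) := mul_le_mul_of_nonneg_left a2 (by positivity)
  linarith

lemma bad_finite (A B δ : ℝ) (X : ℕ) : (Bad A B δ X).Finite := by
  apply (Set.finite_Icc (-(X : ℤ)) X).subset
  intro d hd
  exact abs_le.mp hd.2.1

theorem part2 (δ ε : ℝ) (hδ : 0 ≤ δ) (hε : 0 < ε) : ∃ K : ℝ, 0 < K ∧ ∀ X : ℕ, 1 ≤ X →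
    (Set.ncard {d : ℤ | IsNFD d ∧ |d| ≤ (X : ℤ) ∧
      thr d ^ (1 - δ) < |2 * (N d : ℝ) - primeCount (thr d)|} : ℝ)
      ≤ K * (X : ℝ) ^ (1 / 2 + 2 * δ + ε) := by
  rcases le_or_gt (1 / 2) δ with hcase | hcase
  · refine ⟨1, one_pos, fun X hX => ?_⟩
    have hX1 : (1 : ℝ) ≤ X := by exact_mod_cast hX
    have h0 : Set.ncard {d : ℤ | IsNFD d ∧ |d| ≤ (X : ℤ) ∧
        thr d ^ (1 - δ) < |2 * (N d : ℝ) - primeCount (thr d)|} ≤ X :=
      ncard_triv fun d hd => ⟨hd.1, hd.2.1⟩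
    have h1 : (Set.ncard {d : ℤ | IsNFD d ∧ |d| ≤ (X : ℤ) ∧
        thr d ^ (1 - δ) < |2 * (N d : ℝ) - primeCount (thr d)|} : ℝ) ≤ X := by
      exact_mod_cast h0
    rw [one_mul]
    refine h1.trans ?_
    calc (X : ℝ) = (X : ℝ) ^ (1 : ℝ) := (rpow_one _).symm
      _ ≤ _ := rpow_le_rpow_of_exponent_le hX1 (by linarith)
  obtain ⟨K, hK, hmain⟩ := main 2 4 (δ + ε / 4) (ε / 2) (by norm_num) (by positivity) (by positivity)
  obtain ⟨y0, hy0⟩ := analytic δ (δ + ε / 4) hcase (by linarith)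
  obtain ⟨D0, hD0⟩ := thr_large y0
  refine ⟨D0 + K, by positivity, ?_⟩
  intro X hX
  have hX1 : (1 : ℝ) ≤ X := by exact_mod_cast hX
  have hsub : {d : ℤ | IsNFD d ∧ |d| ≤ (X : ℤ) ∧
      thr d ^ (1 - δ) < |2 * (N d : ℝ) - primeCount (thr d)|} ⊆
      {d : ℤ | IsNFD d ∧ |d| ≤ (D0 : ℤ)} ∪ Bad 2 4 (δ + ε / 4) X := by
    rintro d ⟨hd, hdX, hN⟩
    rcases le_or_gt |d| (D0 : ℤ) with h | h
    · left; exact ⟨hd, h⟩
    · right
      obtain ⟨b1, b2, b3⟩ := hD0 d hd h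
      refine ⟨hd, hdX, thr d, b2, b3, ?_⟩
      obtain ⟨a1, a2⟩ := hy0 _ b1
      obtain ⟨h1, h0⟩ := count_le hd (thr d)
      have h2 : log |(d : ℝ)| ≤ √(thr d) := by
        apply le_sqrt_of_sq_le
        rw [rpow_two] at b2
        exact b2
      have h3 : |2 * (N d : ℝ) - primeCount (thr d)| ≤
          |(splitCount d (thr d) : ℝ) - inertCount d (thr d)| + 2 * √(thr d) := by
        have e : 2 * (N d : ℝ) - primeCount (thr d) =
            ((splitCount d (thr d) : ℝ) - inertCount d (thr d)) +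
            ((splitCount d (thr d) : ℝ) + inertCount d (thr d) - primeCount (thr d)) := by
          unfold N; ring
        rw [e]
        refine (abs_add_le _ _).trans (add_le_add_right ?_ _)
        rw [abs_le]
        constructor <;> linarith
      linarith
  have hfin : ({d : ℤ | IsNFD d ∧ |d| ≤ (D0 : ℤ)} ∪ Bad 2 4 (δ + ε / 4) X).Finite := by
    apply Set.Finite.union _ (bad_finite _ _ _ _)
    apply (Set.finite_Icc (-(D0 : ℤ)) D0).subset
    intro d hd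
    exact abs_le.mp hd.2
  have h1 := (Set.ncard_le_ncard hsub hfin).trans (Set.ncard_union_le _ _)
  have h2 : Set.ncard {d : ℤ | IsNFD d ∧ |d| ≤ (D0 : ℤ)} ≤ D0 := ncard_triv fun d hd => hd
  have h3 := hmain X hX
  have h4 : (1 : ℝ) / 2 + 2 * (δ + ε / 4) + ε / 2 = 1 / 2 + 2 * δ + ε := by ring
  rw [h4] at h3
  have hpow1 : (1 : ℝ) ≤ (X : ℝ) ^ (1 / 2 + 2 * δ + ε) := one_le_rpow hX1 (by positivity)
  have h5 : (Set.ncard {d : ℤ | IsNFD d ∧ |d| ≤ (X : ℤ) ∧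
      thr d ^ (1 - δ) < |2 * (N d : ℝ) - primeCount (thr d)|} : ℝ) ≤
      D0 + (Bad 2 4 (δ + ε / 4) X).ncard := by
    exact_mod_cast h1.trans (Nat.add_le_add_right h2 _)
  have h6 : (D0 : ℝ) ≤ D0 * (X : ℝ) ^ (1 / 2 + 2 * δ + ε) := by
    have : (0 : ℝ) ≤ D0 := Nat.cast_nonneg _
    nlinarith
  linarith

/-- Splitting of primes in imaginary quadratic fields with a power saving, outside a thin set of
discriminants. (1) For `A > 1`, `B`, `δ ≥ 0`, `ε > 0` at most `K X^{1/A + 2δ + ε}` negative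
fundamental discriminants `|d| ≤ X` have, for some `y` between `(log |d|)^A` and `(log |d|)^B`,
numbers of split and of inert primes below `y` differing by more than `y^{1-δ}`.
(2) At the threshold `y = (log |d|)^2 (log log |d|)^2` of the problem, `N(d)` is half of the number
of primes below `y` up to an error `y^{1-δ} / 2`, with at most `K X^{1/2 + 2δ + ε}` exceptions. -/
theorem result :
    (∀ A B δ ε : ℝ, 1 < A → 0 ≤ δ → 0 < ε → ∃ K : ℝ, 0 < K ∧ ∀ X : ℕ, 1 ≤ X →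
      (Set.ncard {d : ℤ | IsNFD d ∧ |d| ≤ (X : ℤ) ∧
        ∃ y : ℝ, (log |(d : ℝ)|) ^ A ≤ y ∧ y ≤ (log |(d : ℝ)|) ^ B ∧
          y ^ (1 - δ) < |(splitCount d y : ℝ) - inertCount d y|} : ℝ) ≤
        K * (X : ℝ) ^ (1 / A + 2 * δ + ε)) ∧
    (∀ δ ε : ℝ, 0 ≤ δ → 0 < ε → ∃ K : ℝ, 0 < K ∧ ∀ X : ℕ, 1 ≤ X →
      (Set.ncard {d : ℤ | IsNFD d ∧ |d| ≤ (X : ℤ) ∧
        thr d ^ (1 - δ) < |2 * (N d : ℝ) - primeCount (thr d)|} : ℝ) ≤
        K * (X : ℝ) ^ (1 / 2 + 2 * δ + ε)) :=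
  ⟨fun A B δ ε hA hδ hε => main A B δ ε hA hδ hε, part2⟩

end Pool.Agent.Results.MP_aaa0df_nt.EquidistributionAlmostAll
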