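import Pool.Agent.TH894.NG3

/-!
# Half of the small primes split, with square-root error, in almost all of the imaginary quadratic fields `ℚ(√(-m))`, where `m`
arises from an arbitrary integer with `K` digits by changing at least `C log K` of its digits

Nothing is used besides Mathlib in the statement.
-/

set_option autoImplicit false

namespace Pool.Agent.Results.MP_aaa0df_nt.FewDigitDiscriminants

open Finset

/-- The negative fundamental discriminants (as in the frozen statement). -/
def IsDisc (d : ℤ) : Prop := d < 0 ∧ ((d % 4 = 1 ∧ Squarefree d) ∨ (∃ m : ℤ, d = 4 * m ∧ (m % 4 = 2 ∨ m % 4 = 3) ∧ Squarefree m))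

/-- The prime `p` splits in `ℚ(√d)` (as in the frozen statement). -/
def Splits (d : ℤ) (p : ℕ) : Prop := ¬ ((p : ℤ) ∣ d) ∧ ∃ x : ℤ, (4 * (p : ℤ)) ∣ x ^ 2 - d

/-- The prime `p` is inert in `ℚ(√d)`. -/
def Inert (d : ℤ) (p : ℕ) : Prop := ¬ ∃ x : ℤ, (4 * (p : ℤ)) ∣ x ^ 2 - d

/-- The fields `ℚ(√d)` and `ℚ(√(-m))` are the same: `d` is `-m` times the square of a nonzero rational number. -/
def SameField (d : ℤ) (m : ℕ) : Prop := ∃ u v : ℤ, u ≠ 0 ∧ v ≠ 0 ∧ d * u ^ 2 = -(m : ℤ) * v ^ 2

open Classical in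
/-- The number of the primes in `P` with a property. -/
noncomputable def number (P : Finset ℕ) (E : ℕ → Prop) : ℕ := (P.filter E).card

/-- (1) For every integer `B ≠ 0` with `|B| ≤ x ^ A` half of the primes in `P` are such that `B m` is a nonzero square, and half
are such that `B m` is not a square, up to `|P| ^ (1 / 2) x ^ δ`; (2) half of the primes in `P` split and half are inert in the
field `ℚ(√(-m))`, up to the same error. -/
def GoodSets (δ : ℝ) (A : ℕ) (P : Finset ℕ) (x m : ℕ) : Prop :=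
  (∀ B : ℤ, B ≠ 0 → |B| ≤ (x : ℤ) ^ A →
    |(number P (fun p => ((B * m : ℤ) : ZMod p) ≠ 0 ∧ IsSquare ((B * m : ℤ) : ZMod p)) : ℝ) - P.card / 2| ≤ Real.sqrt P.card * (x : ℝ) ^ δ ∧
    |(number P (fun p => ¬ IsSquare ((B * m : ℤ) : ZMod p)) : ℝ) - P.card / 2| ≤ Real.sqrt P.card * (x : ℝ) ^ δ) ∧
  ∀ d : ℤ, IsDisc d → SameField d m →
    |(number P (Splits d) : ℝ) - P.card / 2| ≤ Real.sqrt P.card * (x : ℝ) ^ δ ∧
    |(number P (Inert d) : ℝ) - P.card / 2| ≤ Real.sqrt P.card * (x : ℝ) ^ δ

/-- The threshold `(log |d|) ^ 2 (log log |d|) ^ 2` of the question. -/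
noncomputable def threshold (d : ℤ) : ℝ := Real.log |(d : ℝ)| ^ 2 * Real.log (Real.log |(d : ℝ)|) ^ 2

/-- The number `N(d)` of the question. -/
noncomputable def N (d : ℤ) : ℕ := Set.ncard {p : ℕ | p.Prime ∧ (p : ℝ) < threshold d ∧ Splits d p}

/-- The number of all primes below the threshold. -/
noncomputable def Y (d : ℤ) : ℕ := Set.ncard {p : ℕ | p.Prime ∧ (p : ℝ) < threshold d}

/-- The discriminant `d` of `ℚ(√(-m))` satisfies `log |d| ≥ c r` and `|2 N(d) - Y(d)| ≤ Y(d) ^ (1 / 2 + δ)`. -/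
def GoodField (c δ : ℝ) (r m : ℕ) : Prop :=
  ∀ d : ℤ, IsDisc d → SameField d m → c * r ≤ Real.log |(d : ℝ)| ∧ |2 * (N d : ℝ) - Y d| ≤ (Y d : ℝ) ^ (1 / 2 + δ)

/-- The digit number `i` (counted from the right, beginning with `0`) of `n` in base `b`. -/
def digit (b i n : ℕ) : ℕ := n / b ^ i % b

/-- The number which arises from the number `N` with at most `K` digits in base `b`, if for every `i ∈ S`
the digit number `i` is replaced by `f i`. -/
def change (b K N : ℕ) (f : ℕ → ℕ) (S : Finset ℕ) : ℕ :=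
  ∑ i ∈ range K, (if i ∈ S then f i else digit b i N) * b ^ i

open Classical in
/-- The number of the choices of `r` of the `K` positions for which the number obtained by changing the digits of `N` at
the chosen positions (according to `f`) does not have the property `E`. -/
noncomputable def exceptions (b K r N : ℕ) (f : ℕ → ℕ) (E : ℕ → Prop) : ℕ :=
  ((powersetCard r (range K)).filter (fun S => ¬ E (change b K N f S))).card

lemma count_split (d : ℤ) : N d = ((Pool.Agent.TH894.NG.PX (⌈threshold d⌉₊ - 1)).filter (fun p => (open Classical in decide (Splits d p)) = true)).card := by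
  classical
  unfold N
  rw [← Set.ncard_coe_finset]
  congr 1
  ext p
  rw [Set.mem_ofPred_eq, mem_coe, mem_filter, Pool.Agent.TH894.NG.mem_PX, decide_eq_true_iff]
  constructor
  · rintro ⟨h1, h2, h3⟩
    have h4 := Nat.lt_ceil.2 h2
    exact ⟨⟨h1, by omega⟩, h3⟩
  · rintro ⟨⟨h1, h2⟩, h3⟩
    have h4 := h1.pos
    exact ⟨h1, Nat.lt_ceil.1 (by omega), h3⟩

lemma count_all (d : ℤ) : Y d = (Pool.Agent.TH894.NG.PX (⌈threshold d⌉₊ - 1)).card := by
  classical
  unfold Y
  rw [← Set.ncard_coe_finset]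
  congr 1
  ext p
  rw [Set.mem_ofPred_eq, mem_coe, Pool.Agent.TH894.NG.mem_PX]
  constructor
  · rintro ⟨h1, h2⟩
    have h4 := Nat.lt_ceil.2 h2
    exact ⟨h1, by omega⟩
  · rintro ⟨h1, h2⟩
    have h4 := h1.pos
    exact ⟨h1, Nat.lt_ceil.1 (by omega)⟩

/-- Let a base `b ≥ 2`, `δ > 0` and an integer `A ≥ 0` be given.

(1) There are `c > 0` and `y₀` such that for all integers `r`, `K`, `y` with `2 r ≤ K` and `y ≥ y₀`, every integer `0 ≤ N < b ^ K`,
every prescription of a new digit for every position and arbitrary sets `P x` of primes up to `x` the following holds: if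
the digits of `N` at `r` of its `K` positions are replaced, then for all but at most a proportion `1 / y ^ A` of the choices the
number `m` obtained satisfies `GoodSets δ A (P x) x m` for all integers `x` with `y ≤ x ≤ exp (c r)`.

(2) There are `C > 0`, `c > 0` and `K₀` such that for all `K ≥ K₀` and all `r` with `C log K ≤ r ≤ K / 2` (and all `N` and new
digits): for all but at most a proportion `1 / r ^ A` of the choices the discriminant `d` of the field `ℚ(√(-m))` satisfies
`log |d| ≥ c r` and `|2 N(d) - Y(d)| ≤ Y(d) ^ (1 / 2 + δ)`. -/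
theorem result (b : ℕ) (hb : 2 ≤ b) (δ : ℝ) (hδ : 0 < δ) (A : ℕ) :
    (∃ c : ℝ, 0 < c ∧ ∃ y₀ : ℕ, ∀ r K y : ℕ, 2 * r ≤ K → y₀ ≤ y →
      ∀ N : ℕ, N < b ^ K → ∀ f : ℕ → ℕ, (∀ j, f j < b ∧ f j ≠ digit b j N) →
      ∀ P : ℕ → Finset ℕ, (∀ x, ∀ p ∈ P x, p.Prime ∧ p ≤ x) →
        (exceptions b K r N f (fun m => ∀ x : ℕ, y ≤ x → (x : ℝ) ≤ Real.exp (c * r) → GoodSets δ A (P x) x m) : ℝ) ≤
          1 / (y : ℝ) ^ A * (K.choose r : ℝ)) ∧
    (∃ C c : ℝ, 0 < C ∧ 0 < c ∧ ∃ K₀ : ℕ, ∀ K : ℕ, K₀ ≤ K → ∀ r : ℕ, C * Real.log K ≤ r → 2 * r ≤ K →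
      ∀ N : ℕ, N < b ^ K → ∀ f : ℕ → ℕ, (∀ j, f j < b ∧ f j ≠ digit b j N) →
        (exceptions b K r N f (fun m => GoodField c δ r m) : ℝ) ≤ 1 / (r : ℝ) ^ A * (K.choose r : ℝ)) := by
  classical
  constructor
  · obtain ⟨c, hc, x₀, h⟩ := Pool.Agent.TH894.NG.quad_law b hb (δ / 2) (by positivity) A (A + 1)
    have hev : ∀ᶠ x : ℕ in Filter.atTop, (4 : ℝ) ≤ (x : ℝ) ^ (δ / 2) := by
      have h1 : Filter.Tendsto (fun x : ℝ => x ^ (δ / 2)) Filter.atTop Filter.atTop := tendsto_rpow_atTop (by positivity)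
      exact (h1.comp tendsto_natCast_atTop_atTop).eventually (Filter.eventually_ge_atTop _)
    obtain ⟨x₁, h1⟩ := Filter.eventually_atTop.1 hev
    refine ⟨c, hc, x₀ + x₁ + 1, fun r K y hrK hy N hN f hf P hP => ?_⟩
    have hy0 : (0 : ℝ) < y := by exact_mod_cast (by omega : 0 < y)
    have hpow : 1 / (y : ℝ) ^ A = (y : ℝ) ^ (-(A : ℝ)) := by
      rw [Real.rpow_neg hy0.le, Real.rpow_natCast, one_div]
    rw [hpow]
    unfold exceptions
    refine h r K y hrK (by omega) N hN f hf P hP _ (filter_subset _ _) ?_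
    intro S hS
    rw [mem_filter] at hS
    obtain ⟨_, hS2⟩ := hS
    by_contra hcon
    apply hS2
    intro x hyx hxr
    have hx0 : (0 : ℝ) < x := by exact_mod_cast (by omega : 0 < x)
    have hx1 : (1 : ℝ) ≤ x := by exact_mod_cast (by omega : 1 ≤ x)
    obtain ⟨m, hm⟩ : ∃ m, m = change b K N f S := ⟨_, rfl⟩
    rw [← hm]
    have hm' : Pool.Agent.TH894.SM.change b K N f S = m := hm.symm
    rw [hm'] at hcon
    have hlaw : ∀ i : ℤ × Bool, i.1 ≠ 0 → |i.1| ≤ (x : ℤ) ^ (A + 1) →
        |(Pool.Agent.TH894.NG.cq (P x) i m : ℝ) - (P x).card / 2| ≤ Real.sqrt (P x).card * (x : ℝ) ^ (δ / 2) := by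
      intro i hi hi2
      by_contra hlt
      push Not at hlt
      exact hcon ⟨x, hyx, (Real.log_le_iff_le_exp hx0).2 hxr, i, hi, hi2, hlt⟩
    obtain ⟨t, ht⟩ : ∃ t : ℝ, t = (x : ℝ) ^ (δ / 2) := ⟨_, rfl⟩
    have ht2 : (x : ℝ) ^ δ = t * t := by
      rw [ht, ← Real.rpow_add hx0]
      congr 1
      ring
    have ht4 : 4 ≤ t := by rw [ht]; exact h1 x (by omega)
    rw [← ht] at hlaw
    have hs0 : 0 ≤ Real.sqrt ((P x).card : ℝ) := Real.sqrt_nonneg _
    unfold GoodSets
    rw [ht2]
    constructor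
    · intro B hB hBx
      have hBx' : |B| ≤ (x : ℤ) ^ (A + 1) := by
        refine hBx.trans ?_
        have h2 : x ^ A ≤ x ^ (A + 1) := Nat.pow_le_pow_right (by omega) (by omega)
        exact_mod_cast h2
      have k1 := hlaw (B, true) hB hBx'
      have k2 := hlaw (B, false) hB hBx'
      have e1 : Real.sqrt ((P x).card : ℝ) * t ≤ Real.sqrt ((P x).card : ℝ) * (t * t) := by
        apply mul_le_mul_of_nonneg_left _ hs0
        nlinarith
      have c1 : number (P x) (fun p => ((B * m : ℤ) : ZMod p) ≠ 0 ∧ IsSquare ((B * m : ℤ) : ZMod p)) = Pool.Agent.TH894.NG.cq (P x) (B, true) m := by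
        unfold number Pool.Agent.TH894.NG.cq Pool.Agent.TH894.NG.Tq
        simp only [if_true]
        congr 1
        ext p
        simp only [mem_filter, Int.cast_mul, Int.cast_natCast]
      have c2 : number (P x) (fun p => ¬ IsSquare ((B * m : ℤ) : ZMod p)) = Pool.Agent.TH894.NG.cq (P x) (B, false) m := by
        unfold number Pool.Agent.TH894.NG.cq Pool.Agent.TH894.NG.Tq
        simp only [Bool.false_eq_true, if_false]
        congr 1
        ext p
        simp only [mem_filter, Int.cast_mul, Int.cast_natCast]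
      rw [c1, c2]
      exact ⟨k1.trans e1, k2.trans e1⟩
    · intro d hd hs
      have hP1 : ∀ p ∈ P x, p.Prime := fun p hp => (hP x p hp).1
      have hE : ∀ β : Bool, |(Pool.Agent.TH894.NG.cq (P x) (-1, β) m : ℝ) - (P x).card / 2| ≤ Real.sqrt (P x).card * t := by
        intro β
        refine hlaw (-1, β) (by norm_num) ?_
        show |(-1 : ℤ)| ≤ _
        rw [abs_neg, abs_one]
        exact_mod_cast Nat.one_le_pow _ _ (by omega : 0 < x)
      have hfin : ∀ a : ℝ, |a - (P x).card / 2| ≤ 3 * (Real.sqrt (P x).card * t) + 1 → ((P x).card = 0 → a = 0) →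
          |a - (P x).card / 2| ≤ Real.sqrt (P x).card * (t * t) := by
        intro a ha ha0
        rcases Nat.eq_zero_or_pos (P x).card with h0 | h0
        · rw [ha0 h0, h0]
          simp
        · have h2 : 1 ≤ Real.sqrt ((P x).card : ℝ) := by
            rw [Real.one_le_sqrt]
            exact_mod_cast h0
          have h3 : 4 ≤ Real.sqrt ((P x).card : ℝ) * t := by nlinarith
          have h4 : Real.sqrt ((P x).card : ℝ) * t * 1 ≤ Real.sqrt ((P x).card : ℝ) * t * (t - 3) :=
            mul_le_mul_of_nonneg_left (by linarith) (by linarith)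
          have h5 : Real.sqrt ((P x).card : ℝ) * (t * t) = Real.sqrt ((P x).card : ℝ) * t * (t - 3) + 3 * (Real.sqrt ((P x).card : ℝ) * t) := by ring
          linarith
      have k1 := Pool.Agent.TH894.NG.split_of (d := d) (m := m) hd hs (P x) hP1 _ hE true
      have k2 := Pool.Agent.TH894.NG.split_of (d := d) (m := m) hd hs (P x) hP1 _ hE false
      simp only [if_true, Bool.false_eq_true, if_false] at k1 k2
      have z : ∀ E : ℕ → Prop, (P x).card = 0 → (number (P x) E : ℝ) = 0 := by
        intro E h0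
        unfold number
        rw [card_eq_zero.1 h0]
        simp
      have c3 : number (P x) (Splits d) = ((P x).filter (fun p => Pool.Agent.TH894.NG.Sp d p)).card := by
        unfold number
        apply congrArg
        ext p
        simp only [mem_filter]
        exact Iff.rfl
      have c4 : number (P x) (Inert d) = ((P x).filter (fun p => Pool.Agent.TH894.NG.In d p)).card := by
        unfold number
        apply congrArg
        ext p
        simp only [mem_filter]
        exact Iff.rfl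
      refine ⟨hfin _ ?_ (z _), hfin _ ?_ (z _)⟩
      · rw [c3]
        exact k1
      · rw [c4]
        exact k2
  · obtain ⟨C, c, hC, hc, K₀, h⟩ := Pool.Agent.TH894.NG.thr_law b hb δ hδ A
    refine ⟨C, c, hC, hc, K₀, fun K hK r hr hrK N' hN f hf => ?_⟩
    unfold exceptions
    refine h K hK r hr hrK N' hN f hf _ (filter_subset _ _) ?_
    intro S hS hG
    rw [mem_filter] at hS
    apply hS.2
    intro d hd hs
    obtain ⟨k1, k2⟩ := hG d hd hs
    refine ⟨k1, ?_⟩
    rw [count_split, count_all]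
    have hfe : (Pool.Agent.TH894.NG.PX (⌈threshold d⌉₊ - 1)).filter (fun p => (open Classical in decide (Splits d p)) = true) =
        (Pool.Agent.TH894.NG.PX (⌈Pool.Agent.TH894.NG.thr d⌉₊ - 1)).filter (fun p => Pool.Agent.TH894.NG.Sp d p) := by
      ext p
      rw [mem_filter, mem_filter, decide_eq_true_iff]
      exact Iff.rfl
    rw [hfe]
    exact k2

end Pool.Agent.Results.MP_aaa0df_nt.FewDigitDiscriminants
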