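import Mathlib
import Pool.Agent.H568.SP.FinA
import Pool.Agent.H568.SP.Local

/-!
# Half of the small primes split, for almost all discriminants in all short intervals

For real `A > 1`, `b ≥ 0` let `N(d)` be the number of the primes `p < (log |d|)^A (log log |d|)^b` which
split in `ℚ(√d)`, and `Y(d)` the number of all primes below this bound. The question (`A = b = 2`) is
whether `N(d) → ∞` for negative fundamental discriminants `d`. We show that for every `ε > 0` one has
`|N(d) - Y(d)/2| ≤ ε Y(d)` for all but few `d` in *every* interval `x < |d| ≤ x + H`, `1 ≤ H ≤ x`: there are at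
most `H^(A/(2A-1)+η) (log x)^(A+1)` exceptions, for `A = 2` at most `H^(2/3+η) (log x)^3`. So there are only
`o(H)` exceptions in every interval of length `H ≥ (log x)^(9+η')`.

Proof. The odd primes below the bound are distributed into `K` blocks of `m` primes. If the sum of `(d/p)` over
all primes is not small then many of the sums over the blocks are not small, and so is the product over some `k`
blocks. Expanding the square of the product gives characters `(d/n)` to squarefree moduli; the characters are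
distinct for distinct choices, and the theorem of Pólya and Vinogradov bounds the second moment; `k` is chosen
with `(log x)^k` close to `H^(1/(2A-1))`.
-/

set_option autoImplicit false

namespace Pool.Agent.Results.MP_aaa0df_nt.HalfSplitInShortIntervals

open Finset Filter Pool.Agent.H568.SP

/-- the negative fundamental discriminants -/
def NegFund (d : ℤ) : Prop :=
  d < 0 ∧ ((d % 4 = 1 ∧ Squarefree d) ∨
    ∃ m : ℤ, d = 4 * m ∧ (m % 4 = 2 ∨ m % 4 = 3) ∧ Squarefree m)

/-- the bound `(log |d|)^A (log log |d|)^b` for the primes -/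
noncomputable def bd (A b : ℝ) (d : ℤ) : ℝ :=
  (Real.log |(d : ℝ)|) ^ A * (Real.log (Real.log |(d : ℝ)|)) ^ b

/-- the primes below the bound -/
def small (A b : ℝ) (d : ℤ) : Set ℕ := {p : ℕ | p.Prime ∧ (p : ℝ) < bd A b d}

/-- the primes below the bound which split in `ℚ(√d)` -/
def split (A b : ℝ) (d : ℤ) : Set ℕ :=
  {p : ℕ | p.Prime ∧ (p : ℝ) < bd A b d ∧ ¬ (p : ℤ) ∣ d ∧ ∃ x : ℤ, (4 * (p : ℤ)) ∣ x ^ 2 - d}

/-- the negative fundamental discriminants `d` with `x < |d| ≤ y` for which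
`|N(d) - Y(d)/2| ≤ ε Y(d)` is false, where `N(d)` and `Y(d)` are the numbers of split primes and of all primes
below the bound -/
def Bad (A b ε : ℝ) (x y : ℕ) : Set ℤ :=
  {d : ℤ | NegFund d ∧ (x : ℤ) < |d| ∧ |d| ≤ (y : ℤ) ∧
    ¬ |((split A b d).ncard : ℝ) - ((small A b d).ncard : ℝ) / 2| ≤ ε * ((small A b d).ncard : ℝ)}

theorem mod4 {d : ℤ} (h : NegFund d) : d % 4 = 0 ∨ d % 4 = 1 := by
  obtain ⟨_, ⟨h1, _⟩ | ⟨m, h1, _, _⟩⟩ := h
  · exact Or.inr h1
  · left; omega

/-- the discriminants of `Bad` have large character sums -/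
theorem bad_sum {A b ε ε' : ℝ} (hε' : 0 < ε') (hεε : ε' ≤ ε) {x y : ℕ} (hx : 1 ≤ x) (hy : y ≤ 2 * x)
    (hloc : ∀ s : ℝ, Real.log x ≤ s → s ≤ Real.log x + 1 →
      0 ≤ Yf A b (Real.log x) ∧ Yf A b (Real.log x) ≤ Yf A b s ∧ 2 < Yf A b s ∧
      2 * s + 2 + (Yf A b s - Yf A b (Real.log x)) ≤
        ε' * ((PPf (Yf A b (Real.log x))).card : ℝ)) {d : ℤ} (hd : d ∈ Bad A b ε x y) :
    ε' * ((PPf (Yf A b (Real.log x))).card : ℝ) ≤
      |∑ p ∈ PPf (Yf A b (Real.log x)), ((jacobiSym d p : ℤ) : ℝ)| := by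
  obtain ⟨h1, h2, h3, h4⟩ := hd
  by_contra hc
  push Not at hc
  apply h4
  have hx0 : (0 : ℝ) < x := by exact_mod_cast hx
  have b1 : (x : ℝ) < |(d : ℝ)| := by exact_mod_cast h2
  have b2 : |(d : ℝ)| ≤ 2 * x := by
    have e1 : |(d : ℝ)| ≤ y := by exact_mod_cast h3
    have e2 : (y : ℝ) ≤ 2 * x := by exact_mod_cast hy
    linarith
  have c1 : Real.log x ≤ Real.log |(d : ℝ)| := Real.log_le_log hx0 b1.le
  have c2 : Real.log |(d : ℝ)| ≤ Real.log x + 1 := by
    have e1 := Real.log_le_log (by linarith) b2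
    rw [Real.log_mul (by norm_num) hx0.ne'] at e1
    have e2 : Real.log 2 < 0.7 := by have := Real.log_two_lt_d9; linarith
    linarith
  obtain ⟨l1, l2, l3, l4⟩ := hloc _ c1 c2
  have hd0 : d ≠ 0 := ne_of_lt h1.1
  have key := local_bound d (mod4 h1) hd0 l1 l2 l3 hε' hc (by linarith)
  refine le_trans key ?_
  exact mul_le_mul_of_nonneg_right hεε (Nat.cast_nonneg _)

/-- For all real `A > 1`, `b ≥ 0`, `ε > 0`, `η > 0` and all large `x`: in every interval
`x < |d| ≤ x + H`, `1 ≤ H ≤ x`, all but at most `H^(A/(2A-1)+η) (log x)^(A+1)` negative fundamental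
discriminants have `|N(d) - Y(d)/2| ≤ ε Y(d)`. -/
theorem result (A b : ℝ) (hA : 1 < A) (hb : 0 ≤ b) (ε η : ℝ) (hε : 0 < ε) (hη : 0 < η) :
    ∃ x0 : ℕ, ∀ x : ℕ, x0 ≤ x → ∀ H : ℕ, 1 ≤ H → H ≤ x →
      ((Bad A b ε x (x + H)).ncard : ℝ) ≤
        (H : ℝ) ^ (A / (2 * A - 1) + η) * (Real.log x) ^ (A + 1) := by
  classical
  set ε' := min ε 1 with hε'
  have e1 : 0 < ε' := lt_min hε one_pos
  have e2 : ε' ≤ ε := min_le_left _ _
  have e3 : ε' ≤ 1 := min_le_right _ _
  set δ := min (η / 8) (min ((A - 1) / 4) (1 / 4)) with hδdef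
  have d1 : 0 < δ := lt_min (by linarith) (lt_min (by linarith) (by norm_num))
  have d2 : 8 * δ ≤ η := by have := min_le_left (η / 8) (min ((A - 1) / 4) (1 / 4)); linarith
  have d3 : 4 * δ ≤ A - 1 := by
    have := (min_le_right (η / 8) (min ((A - 1) / 4) (1 / 4))).trans (min_le_left _ _); linarith
  have d4 : δ ≤ 1 / 4 :=
    (min_le_right (η / 8) (min ((A - 1) / 4) (1 / 4))).trans (min_le_right _ _)
  have d5 : 3 * δ < A - 1 := by linarith
  have v1 := ev_good A b δ ε' hA hb d1 d5 e1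
  have v2 := ev_local A b δ ε' hA hb d1 d5 d4 e1
  have v3 := ev_rpow_le 6 (A - 1) (A + 1) (by linarith)
  have v4 := ev_rpow_le 48 0 (A + 1) (by linarith)
  have v5 := ev_rpow_le (96 * (A + 1)) 1 (A + 1) (by linarith)
  have hall := (((v1.and v2).and v3).and v4).and v5
  have htend : Tendsto (fun x : ℕ => Real.log (x : ℝ)) atTop atTop :=
    Real.tendsto_log_atTop.comp tendsto_natCast_atTop_atTop
  obtain ⟨x0, hx0⟩ := eventually_atTop.1 (htend.eventually hall)
  refine ⟨max x0 1, fun x hx H hH hHx => ?_⟩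
  have hx1 : 1 ≤ x := le_trans (le_max_right _ _) hx
  obtain ⟨⟨⟨⟨w1, w2⟩, w3⟩, w4⟩, w5⟩ := hx0 x (le_trans (le_max_left _ _) hx)
  set t := Real.log (x : ℝ) with ht
  have hx' : (1 : ℝ) ≤ x := by exact_mod_cast hx1
  set D := (Ioc x (x + H)).filter fun n : ℕ => (-(n : ℤ)) ∈ Bad A b ε x (x + H) with hD
  have hsub : Bad A b ε x (x + H) ⊆ ((D.image fun n : ℕ => (-(n : ℤ)) : Finset ℤ) : Set ℤ) := by
    intro d hd
    rw [mem_coe, mem_image]
    obtain ⟨h1, h2, h3, h4⟩ := id hd
    have hneg := h1.1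
    rw [abs_of_neg hneg] at h2 h3
    have e : (-((-d).toNat : ℤ)) = d := by omega
    refine ⟨(-d).toNat, ?_, e⟩
    rw [hD, mem_filter, mem_Ioc, e]
    refine ⟨⟨by omega, by omega⟩, hd⟩
  have hcard : ((Bad A b ε x (x + H)).ncard : ℝ) ≤ D.card := by
    have h1 := Set.ncard_le_ncard hsub (finite_toSet _)
    rw [Set.ncard_coe_finset] at h1
    exact_mod_cast h1.trans card_image_le
  have hbig : 2 * t ^ (A - 1) + 16 + 32 * (A + 1) * t ≤ t ^ (A + 1) := by
    rw [Real.rpow_zero] at w4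
    rw [Real.rpow_one] at w5
    linarith
  have key := finA (b := b) hA d1 (by linarith) d5 e1 e3 w1 hbig x H ht hH hHx D
    (filter_subset _ _) (fun n hn => by
      rw [hD, mem_filter] at hn
      exact bad_sum e1 e2 hx1 (by omega) w2 hn.2)
  refine hcard.trans (key.trans ?_)
  have hH' : (1 : ℝ) ≤ H := by exact_mod_cast hH
  refine mul_le_mul_of_nonneg_right ?_ (Real.rpow_nonneg (by linarith [w1.t1]) _)
  exact Real.rpow_le_rpow_of_exponent_le hH' (by linarith)

end Pool.Agent.Results.MP_aaa0df_nt.HalfSplitInShortIntervals
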