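import Pool.Agent.TH869.EVF.Fsp

set_option autoImplicit false

/-!
# Small split primes in the quadratic fields of a polynomial family

Let `f` be an integer polynomial which is not a constant times a square of a polynomial, let
`A > 1` and `ε > 0`.  Then there are `c > 0` and `C` such that for every `N ≥ 1` and all
`1 ≤ n ≤ N` outside a set of at most `C N ^ (1 - c)` integers, the discriminant `d` of `ℚ(√(f n))`
(the fundamental discriminant `d` with `f n * d` a square) has `|d| > N ^ (1/16)`, and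

* for every `y` with `(log |d|) ^ A ≤ y ≤ |d| ^ c`, the number of primes `p ≤ y` which split in
  `ℚ(√d)` is `π(y) / 2` up to an error of at most `ε π(y)`;
* at least `(log |d|) ^ (2 - ε)` primes `p < (log |d|) ^ 2 (log log |d|) ^ 2` split in `ℚ(√d)`.
-/

namespace Pool.Agent.Results.MP_aaa0df_nt.PolynomialFamilies

open Polynomial

theorem result (f : ℤ[X])
    (hf : ∀ (c : ℚ) (g : ℚ[X]), f.map (Int.castRingHom ℚ) ≠ C c * g ^ 2)
    (A : ℝ) (hA : 1 < A) (ε : ℝ) (hε : 0 < ε) :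
    ∃ c C : ℝ, 0 < c ∧ 0 < C ∧ ∀ N : ℕ, 1 ≤ N → ∃ E : Finset ℕ,
      (E.card : ℝ) ≤ C * (N : ℝ) ^ (1 - c) ∧
      ∀ n : ℕ, 1 ≤ n → n ≤ N → n ∉ E →
      ∀ d : ℤ, ((d % 4 = 1 ∧ Squarefree d) ∨
        (∃ m : ℤ, d = 4 * m ∧ (m % 4 = 2 ∨ m % 4 = 3) ∧ Squarefree m)) →
        IsSquare (f.eval (n : ℤ) * d) →
        (d ≠ 1 ∧ f.eval (n : ℤ) ≠ 0 ∧ (N : ℝ) ^ (1 / 16 : ℝ) < |(d : ℝ)|) ∧
        (∀ y : ℕ, Real.log |(d : ℝ)| ^ A ≤ y → (y : ℝ) ≤ |(d : ℝ)| ^ c →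
          |(Set.ncard {p : ℕ | p.Prime ∧ p ≤ y ∧ ¬ ((p : ℤ) ∣ d) ∧
            ∃ x : ℤ, (4 * (p : ℤ)) ∣ x ^ 2 - d} : ℝ) - (Nat.primeCounting y : ℝ) / 2| ≤
              ε * Nat.primeCounting y) ∧
        Real.log |(d : ℝ)| ^ (2 - ε) ≤ (Set.ncard {p : ℕ | p.Prime ∧
            ((p : ℝ) < Real.log |(d : ℝ)| ^ 2 * Real.log (Real.log |(d : ℝ)|) ^ 2) ∧
            ¬ ((p : ℤ) ∣ d) ∧ ∃ x : ℤ, (4 * (p : ℤ)) ∣ x ^ 2 - d} : ℝ) :=
  Pool.Agent.TH869.EVF.poly_split f hf A hA ε hε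

end Pool.Agent.Results.MP_aaa0df_nt.PolynomialFamilies
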